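import Pool.Agent.Helper97.FS.Stmts
import Pool.Agent.Helper16.Sub.A1

set_option autoImplicit false

namespace Pool.Agent.Helper97.FS

open Finset MeasureTheory Filter Topology UnitAddTorus
open scoped ComplexConjugate
open Pool.Agent.Helper97.Sub

section

variable {d : ℕ}

theorem link_len_eq {L : Fin d → ℝ} (hL : ∀ a, 0 < L a) (j : Fin d → ℤ) (hj : 0 ≤ j ∨ j ≤ 0) :
    |len L j| = ∑ a, L a * |(j a : ℝ)| := by
  rcases hj with h | h
  · have h1 : len L j = ∑ a, L a * |(j a : ℝ)| := by
      unfold len
      refine Finset.sum_congr rfl fun a _ => ?_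
      have h2 : (0 : ℝ) ≤ (j a : ℝ) := by exact_mod_cast h a
      rw [abs_of_nonneg h2]
    rw [h1]
    exact abs_of_nonneg (Finset.sum_nonneg fun a _ => mul_nonneg (hL a).le (abs_nonneg _))
  · have h1 : len L j = -∑ a, L a * |(j a : ℝ)| := by
      unfold len
      rw [← Finset.sum_neg_distrib]
      refine Finset.sum_congr rfl fun a _ => ?_
      have h2 : (j a : ℝ) ≤ 0 := by exact_mod_cast h a
      rw [abs_of_nonpos h2]
      ring
    rw [h1, abs_neg]
    exact abs_of_nonneg (Finset.sum_nonneg fun a _ => mul_nonneg (hL a).le (abs_nonneg _))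

theorem link_coord {L : Fin d → ℝ} (hL : ∀ a, 0 < L a) (j : Fin d → ℤ) (hj : 0 ≤ j ∨ j ≤ 0)
    (a : Fin d) : L a * |(j a : ℝ)| ≤ |len L j| := by
  rw [link_len_eq hL j hj]
  exact Finset.single_le_sum (f := fun a => L a * |(j a : ℝ)|)
    (fun b _ => mul_nonneg (hL b).le (abs_nonneg _)) (Finset.mem_univ a)

theorem link_fin {L : Fin d → ℝ} {gam : Fin d → Fin d → (Fin d → ℤ) → ℝ} (h : GamF L gam)
    (R : ℝ) : {j : Fin d → ℤ | |len L j| ≤ R ∧ ∃ a b, gam a b j ≠ 0}.Finite := by
  refine (Set.finite_Icc (fun a => -⌈R / L a⌉ : Fin d → ℤ) (fun a => ⌈R / L a⌉)).subset ?_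
  rintro j ⟨hj, a, b, hg⟩
  have h1 := h.supp a b j hg
  have h2 : ∀ c, |(j c : ℝ)| ≤ R / L c := by
    intro c
    rw [le_div_iff₀ (h.Lpos c), mul_comm]
    exact (link_coord h.Lpos j h1 c).trans hj
  rw [Set.mem_Icc]
  constructor
  · intro c
    have h3 := (abs_le.mp (h2 c)).1
    have h4 := Int.le_ceil (R / L c)
    have h5 : (-(⌈R / L c⌉ : ℤ) : ℝ) ≤ (j c : ℝ) := by linarith
    exact_mod_cast h5
  · intro c
    have h3 := (abs_le.mp (h2 c)).2
    have h4 := Int.le_ceil (R / L c)
    have h5 : (j c : ℝ) ≤ ((⌈R / L c⌉ : ℤ) : ℝ) := by linarith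
    exact_mod_cast h5

theorem link_zero {L : Fin d → ℝ} {gam : Fin d → Fin d → (Fin d → ℤ) → ℝ} (h : GamF L gam)
    (a b : Fin d) (j : Fin d → ℤ) (hg : gam a b j ≠ 0) (hj : len L j = 0) : j = 0 := by
  funext c
  have h1 := link_coord h.Lpos j (h.supp a b j hg) c
  rw [hj, abs_zero] at h1
  have h2 : |(j c : ℝ)| ≤ 0 := by
    by_contra h3
    push Not at h3
    have := mul_pos (h.Lpos c) h3
    linarith
  have h3 : (j c : ℝ) = 0 := by
    have := abs_nonneg (j c : ℝ)
    exact abs_eq_zero.mp (le_antisymm h2 this)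
  exact_mod_cast h3

theorem link_ww_zero {s : ℝ} (h : 1 ≤ |s|) : ww s = 0 := by
  unfold ww
  rw [max_eq_right (by linarith)]
  norm_num

theorem link_mem {s n : ℕ} (gam : Fin d → Fin d → (Fin d → ℤ) → ℝ)
    (p : (Fin d → ℤ) →+ (Fin s → ℤ)) (q : (Fin d → ℤ) →+ (Fin n → ℤ)) (a b : Fin d)
    (m : Fin n → ℤ) : Bc gam p q a b m ∈ mFourierSubalgebra (Fin s) := by
  unfold Bc
  refine finsum_induction (fun f => f ∈ mFourierSubalgebra (Fin s)) ?_ ?_ ?_
  · exact zero_mem _
  · intro x y hx hy
    exact add_mem hx hy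
  · intro j
    split_ifs
    · refine SMulMemClass.smul_mem _ ?_
      exact Algebra.subset_adjoin ⟨_, rfl⟩
    · exact zero_mem _

/-- integral of a monomial -/
theorem link_int {n : ℕ} (m : Fin n → ℤ) :
    ∫ x, mFourier m x ∂(tor n) = if m = 0 then 1 else 0 := by
  have h1 : ∫ x, mFourier m x ∂(tor n) =
      ∏ i, ∫ t : AddCircle (1 : ℝ), fourier (m i) t ∂AddCircle.haarAddCircle := by
    rw [← integral_fintype_prod_eq_prod (μ := fun _ : Fin n => AddCircle.haarAddCircle)
      (fun i t => (fourier (m i) t : ℂ))]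
    rfl
  rw [h1]
  have h2 : ∀ k : ℤ, ∫ t : AddCircle (1 : ℝ), fourier k t ∂AddCircle.haarAddCircle =
      if k = 0 then (1 : ℂ) else 0 := Pool.Agent.Helper97.Sub.A1_fourier_int
  simp only [h2]
  split_ifs with h3
  · subst h3
    simp
  · obtain ⟨i, hi⟩ := Function.ne_iff.mp h3
    exact Finset.prod_eq_zero (Finset.mem_univ i) (if_neg hi)

theorem link_norm {s : ℕ} (m : Fin s → ℤ) (x : UnitAddTorus (Fin s)) : ‖mFourier m x‖ = 1 := by
  have h : ∀ i, ‖(fourier (m i) (x i) : ℂ)‖ = 1 := fun i => by
    rw [fourier_apply]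
    exact Circle.norm_coe _
  change ‖∏ i, (fourier (m i) (x i) : ℂ)‖ = 1
  rw [norm_prod, Finset.prod_congr rfl fun i _ => h i, Finset.prod_const_one]

theorem link_zpow {s : ℕ} (k : ℤ) (m : Fin s → ℤ) (x : UnitAddTorus (Fin s)) :
    mFourier (k • m) x = (mFourier m x) ^ k := by
  let φ : Multiplicative (Fin s → ℤ) →* ℂ :=
    { toFun := fun m => mFourier (Multiplicative.toAdd m) x
      map_one' := by
        change mFourier (0 : Fin s → ℤ) x = 1
        rw [mFourier_zero]
        rfl
      map_mul' := fun a b => by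
        change mFourier (Multiplicative.toAdd a + Multiplicative.toAdd b) x = _
        rw [mFourier_add] }
  have h1 : ∀ a : Multiplicative (Fin s → ℤ), φ a⁻¹ = (φ a)⁻¹ := by
    intro a
    change mFourier (-(Multiplicative.toAdd a)) x = (mFourier (Multiplicative.toAdd a) x)⁻¹
    rw [mFourier_neg]
    have h2 := link_norm (Multiplicative.toAdd a) x
    rw [Complex.inv_def, Complex.normSq_eq_norm_sq, h2]
    simp
  exact map_zpow' φ h1 (Multiplicative.ofAdd m) k

theorem link_prod {s : ℕ} (p : (Fin d → ℤ) →+ (Fin s → ℤ)) (j : Fin d → ℤ)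
    (x : UnitAddTorus (Fin s)) :
    ∏ a, (mFourier (p (Pi.single a 1)) x) ^ (j a) = mFourier (p j) x := by
  have h1 : p j = ∑ a, j a • p (Pi.single a 1) := by
    conv_lhs => rw [show j = ∑ a, j a • (Pi.single a 1 : Fin d → ℤ) from by
      funext b
      simp [Finset.sum_apply, Pi.single_apply]]
    rw [map_sum]
    simp only [map_zsmul]
  rw [h1]
  have h2 : ∀ S : Finset (Fin d), mFourier (∑ a ∈ S, j a • p (Pi.single a 1)) x =
      ∏ a ∈ S, (mFourier (p (Pi.single a 1)) x) ^ (j a) := by
    intro S
    induction S using Finset.induction_on with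
    | empty =>
      rw [Finset.sum_empty, Finset.prod_empty, mFourier_zero]
      rfl
    | insert b S hb ih => rw [Finset.sum_insert hb, Finset.prod_insert hb, mFourier_add, ih, link_zpow]
  rw [h2]

theorem link_chi {s n : ℕ} (p : (Fin d → ℤ) →+ (Fin s → ℤ)) (q : (Fin d → ℤ) →+ (Fin n → ℤ))
    (η : UnitAddTorus (Fin s)) (x : UnitAddTorus (Fin n)) (j : Fin d → ℤ) :
    chi (yv p q η x) j = mFourier (p j) η * mFourier (q j) x := by
  unfold chi yv
  simp only [mul_zpow]
  rw [Finset.prod_mul_distrib, link_prod, link_prod]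

/-- the finite index set -/
theorem link_VV {L : Fin d → ℝ} {gam : Fin d → Fin d → (Fin d → ℤ) → ℝ} (t : ℝ) (ht : 0 < t)
    (F : Finset (Fin d → ℤ)) (hF : ∀ j, |len L j| ≤ t → (∃ a b, gam a b j ≠ 0) → j ∈ F)
    (y : Fin d → ℂ) :
    VV gam L y t = ∑ j ∈ F, (∑ c, gam c c j) * (chi y j).re * ww (len L j / t) := by
  unfold VV
  refine finsum_eq_sum_of_support_subset _ ?_
  intro j hj
  rw [Function.mem_support] at hj
  refine hF j ?_ ?_
  · by_contra h1
    push Not at h1
    apply hj
    rw [link_ww_zero, mul_zero]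
    rw [abs_div, abs_of_pos ht, le_div_iff₀ ht]
    linarith
  · by_contra h1
    push Not at h1
    apply hj
    rw [Finset.sum_eq_zero fun c _ => h1 c c, zero_mul, zero_mul]

theorem link_Bc {s n : ℕ} {L : Fin d → ℝ} {gam : Fin d → Fin d → (Fin d → ℤ) → ℝ}
    (p : (Fin d → ℤ) →+ (Fin s → ℤ)) (q : (Fin d → ℤ) →+ (Fin n → ℤ))
    (v : (Fin n → ℤ) →+ ℝ) (hv : ∀ j, v (q j) = len L j) (t : ℝ)
    (F : Finset (Fin d → ℤ)) (hF : ∀ j, |len L j| ≤ t → (∃ a b, gam a b j ≠ 0) → j ∈ F)
    (a b : Fin d) (m : Fin n → ℤ) (hm : |v m| ≤ t) :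
    Bc gam p q a b m =
      ∑ j ∈ F, if q j = m then (gam a b j : ℂ) • mFourier (-(p j)) else 0 := by
  unfold Bc
  refine finsum_eq_sum_of_support_subset _ ?_
  intro j hj
  rw [Function.mem_support] at hj
  by_cases h1 : q j = m
  · rw [if_pos h1] at hj
    refine hF j ?_ ⟨a, b, ?_⟩
    · rw [← hv, h1]
      exact hm
    · intro h2
      apply hj
      ext x
      rw [ContinuousMap.smul_apply, h2, Complex.ofReal_zero, zero_smul]
      rfl
  · rw [if_neg h1] at hj
    exact absurd rfl hj

theorem st_LINK : ST_LINK := by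
  classical
  intro d L gam h s n p q v hv
  refine ⟨fun a b m => link_mem gam p q a b m, ?_, ?_⟩
  · intro R
    refine ((link_fin h R).image q).subset ?_
    rintro m ⟨hm, i, hi⟩
    have h1 := link_Bc (gam := gam) p q v hv R (link_fin h R).toFinset
      (fun j h1 h2 => by
        rw [Set.Finite.mem_toFinset]
        exact ⟨h1, h2⟩) i.1 i.2 m hm
    rw [h1] at hi
    obtain ⟨j, hj, hj2⟩ := Finset.exists_ne_zero_of_sum_ne_zero hi
    rw [Set.Finite.mem_toFinset] at hj
    refine ⟨j, hj, ?_⟩
    by_contra h3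
    exact hj2 (if_neg h3)
  · intro t ht
    obtain ⟨F, hFdef⟩ : ∃ F : Finset (Fin d → ℤ), ∀ j, j ∈ F ↔
        |len L j| ≤ t ∧ ∃ a b, gam a b j ≠ 0 :=
      ⟨(link_fin h t).toFinset, fun j => by rw [Set.Finite.mem_toFinset]; rfl⟩
    have hF : ∀ j, |len L j| ≤ t → (∃ a b, gam a b j ≠ 0) → j ∈ F :=
      fun j h1 h2 => (hFdef j).mpr ⟨h1, h2⟩
    have hVV : ∀ (η : UnitAddTorus (Fin s)) (x : UnitAddTorus (Fin n)),
        VV gam L (yv p q η x) t = ∑ j ∈ F, (∑ c, gam c c j) *
          (mFourier (p j) η * mFourier (q j) x).re * ww (len L j / t) := by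
      intro η x
      rw [link_VV t ht F hF]
      refine Finset.sum_congr rfl fun j _ => ?_
      rw [link_chi]
    refine ⟨?_, ?_, ?_⟩
    · intro η x
      rw [hVV]
      unfold VE
      have h1 : (∑ᶠ m : Fin n → ℤ, (∑ a, Bc gam p q a a m η) * mFourier (-m) x *
          ((ww (v m / t) : ℝ) : ℂ)) = ∑ m ∈ F.image q, (∑ a, Bc gam p q a a m η) *
            mFourier (-m) x * ((ww (v m / t) : ℝ) : ℂ) := by
        refine finsum_eq_sum_of_support_subset _ ?_
        intro m hm
        rw [Function.mem_support] at hm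
        have h2 : |v m| ≤ t := by
          by_contra h3
          push Not at h3
          apply hm
          rw [link_ww_zero, Complex.ofReal_zero, mul_zero]
          rw [abs_div, abs_of_pos ht, le_div_iff₀ ht]
          linarith
        by_contra h3
        apply hm
        rw [Finset.sum_eq_zero, zero_mul, zero_mul]
        intro a _
        rw [link_Bc p q v hv t F hF a a m h2]
        have h4 : (∑ j ∈ F, if q j = m then (gam a a j : ℂ) • mFourier (-(p j)) else 0) =
            (0 : C(UnitAddTorus (Fin s), ℂ)) := by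
          refine Finset.sum_eq_zero fun j hj => ?_
          rw [if_neg]
          intro h5
          apply h3
          rw [Finset.coe_image]
          exact ⟨j, hj, h5⟩
        rw [h4]
        rfl
      rw [h1]
      have h2 : ∀ m ∈ F.image q, (∑ a, Bc gam p q a a m η) * mFourier (-m) x *
          ((ww (v m / t) : ℝ) : ℂ) = ∑ j ∈ F, if q j = m then
            ((∑ a, gam a a j : ℝ) : ℂ) * mFourier (-(p j)) η * mFourier (-m) x *
              ((ww (v m / t) : ℝ) : ℂ) else 0 := by
        intro m hm
        obtain ⟨j0, hj0, hj1⟩ := Finset.mem_image.mp hm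
        have h3 : |v m| ≤ t := by
          rw [← hj1, hv]
          exact ((hFdef j0).mp hj0).1
        have h4 : ∑ a, Bc gam p q a a m η = ∑ j ∈ F, if q j = m then
            ((∑ a, gam a a j : ℝ) : ℂ) * mFourier (-(p j)) η else 0 := by
          have h5 : ∀ a, Bc gam p q a a m η = ∑ j ∈ F, if q j = m then
              (gam a a j : ℂ) * mFourier (-(p j)) η else 0 := by
            intro a
            rw [link_Bc p q v hv t F hF a a m h3, ContinuousMap.sum_apply]
            refine Finset.sum_congr rfl fun j _ => ?_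
            split_ifs <;> simp
          rw [Finset.sum_congr rfl fun a _ => h5 a, Finset.sum_comm]
          refine Finset.sum_congr rfl fun j _ => ?_
          split_ifs
          · rw [← Finset.sum_mul]
            push_cast
            rfl
          · simp
        rw [h4, Finset.sum_mul, Finset.sum_mul]
        refine Finset.sum_congr rfl fun j _ => ?_
        split_ifs <;> simp
      rw [Finset.sum_congr rfl h2, Finset.sum_comm, Complex.re_sum]
      refine Finset.sum_congr rfl fun j hj => ?_
      rw [Finset.sum_ite_eq, if_pos (Finset.mem_image_of_mem q hj), hv, mFourier_neg, mFourier_neg]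
      generalize (∑ a, gam a a j : ℝ) = G
      generalize ww (len L j / t) = w
      generalize mFourier (p j) η = a
      generalize mFourier (q j) x = b
      simp only [Complex.mul_re, Complex.ofReal_re, Complex.ofReal_im, Complex.conj_re,
        Complex.conj_im, Complex.mul_im]
      ring
    · simp only [hVV]
      refine Finset.measurable_sum _ fun j _ => ?_
      refine Measurable.mul_const (Measurable.const_mul ?_ _) _
      refine Complex.measurable_re.comp ?_
      exact ((mFourier (p j)).continuous.measurable.comp measurable_fst).mul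
        ((mFourier (q j)).continuous.measurable.comp measurable_snd)
    · intro η
      obtain ⟨g, hg⟩ : ∃ g : C(UnitAddTorus (Fin n), ℂ), ∀ x, g x = ∑ j ∈ F,
          ((((∑ c, gam c c j) * ww (len L j / t) : ℝ) : ℂ) * mFourier (p j) η) *
            mFourier (q j) x := by
        refine ⟨∑ j ∈ F, ((((∑ c, gam c c j) * ww (len L j / t) : ℝ) : ℂ) * mFourier (p j) η) •
          mFourier (q j), fun x => ?_⟩
        rw [ContinuousMap.sum_apply]
        rfl
      have hgV : ∀ x, VV gam L (yv p q η x) t = (g x).re := by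
        intro x
        rw [hVV, hg, Complex.re_sum]
        refine Finset.sum_congr rfl fun j _ => ?_
        rw [mul_assoc (Complex.ofReal _), Complex.re_ofReal_mul]
        ring
      have hgi : Integrable (fun x => g x) (tor n) :=
        g.continuous.integrable_of_hasCompactSupport (HasCompactSupport.of_compactSpace _)
      simp only [hgV]
      refine ⟨hgi.re, ?_⟩
      have h1 : ∫ x, (g x).re ∂(tor n) = (∫ x, g x ∂(tor n)).re := integral_re hgi
      rw [h1]
      simp only [hg]
      rw [integral_finsetSum]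
      · have h2 : ∀ j ∈ F, ∫ x, ((((∑ c, gam c c j) * ww (len L j / t) : ℝ) : ℂ) *
            mFourier (p j) η) * mFourier (q j) x ∂(tor n) =
            if j = 0 then ((∑ c, gam c c 0 : ℝ) : ℂ) else 0 := by
          intro j hj
          rw [integral_const_mul, link_int]
          by_cases h3 : j = 0
          · subst h3
            rw [map_zero, map_zero, if_pos rfl, if_pos rfl, mFourier_zero]
            have h4 : len L (0 : Fin d → ℤ) = 0 := by simp [len]
            rw [h4]
            simp [ww]
          · rw [if_neg h3, if_neg, mul_zero]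
            intro h4
            obtain ⟨h5, a, b, h6⟩ := (hFdef j).mp hj
            apply h3
            refine link_zero h a b j h6 ?_
            rw [← hv, h4, map_zero]
        rw [Finset.sum_congr rfl h2, Finset.sum_ite_eq', if_pos, h.trace]
        · simp
        · rw [hFdef]
          refine ⟨by simp [len, ht.le], ?_⟩
          by_contra h3
          push Not at h3
          have h4 := h.trace
          rw [Finset.sum_eq_zero fun c _ => h3 c c] at h4
          exact zero_ne_one h4
      · intro j _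
        exact ((mFourier (q j)).continuous.integrable_of_hasCompactSupport
          (HasCompactSupport.of_compactSpace _)).const_mul _

end

end Pool.Agent.Helper97.FS
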